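import Mathlib

set_option autoImplicit false

namespace Pool.Agent.MP1358e2

open Equiv

/-! ### Finitely generated free groups are residually finite -/

section FreeRF

theorem freeGroup_rf (X : Type) [Finite X] (z : FreeGroup X) (hz : z ≠ 1) :
    ∃ (S : Type) (_ : Group S) (_ : Finite S) (f : FreeGroup X →* S), f z ≠ 1 := by
  classical
  let n := z.norm
  let B := {g : FreeGroup X // g.norm ≤ n}
  have hB : Finite B := by
    have h1 : {l : List (X × Bool) | l.length ≤ n}.Finite := List.finite_length_le _ n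
    have h2 : Finite {l : List (X × Bool) | l.length ≤ n} := h1.to_subtype
    exact Finite.of_injective
      (fun g : B => (⟨g.1.toWord, g.2⟩ : {l : List (X × Bool) | l.length ≤ n}))
      (fun g h hgh => Subtype.ext (FreeGroup.toWord_injective (congrArg Subtype.val hgh)))
  have hσ : ∀ x : X, ∃ σ : Perm B, ∀ g : B, ∀ h : (FreeGroup.of x * g.1).norm ≤ n,
      σ g = ⟨FreeGroup.of x * g.1, h⟩ := by
    intro x
    obtain ⟨σ, hσ⟩ := Equiv.Perm.exists_extending_pair
      (fun g : {g : B // (FreeGroup.of x * g.1).norm ≤ n} => g.1)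
      (fun g : {g : B // (FreeGroup.of x * g.1).norm ≤ n} =>
        (⟨FreeGroup.of x * g.1.1, g.2⟩ : B))
      Subtype.val_injective
      (fun g h hgh => by
        have := congrArg Subtype.val hgh
        exact Subtype.ext (Subtype.ext (mul_left_cancel this)))
    exact ⟨σ, fun g h => hσ ⟨g, h⟩⟩
  choose σ hσ using hσ
  have key : ∀ L : List (X × Bool), ∀ hL : L.length ≤ n,
      FreeGroup.lift σ (FreeGroup.mk L) ⟨1, by rw [FreeGroup.norm_one]; exact Nat.zero_le _⟩
        = (⟨FreeGroup.mk L, FreeGroup.norm_mk_le.trans hL⟩ : B) := by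
    intro L
    induction L with
    | nil =>
      intro hL
      rfl
    | cons xb L ih =>
      obtain ⟨x, b⟩ := xb
      intro hL
      have hL' : L.length ≤ n := by
        rw [List.length_cons] at hL
        omega
      cases b with
      | true =>
        have e1 : (FreeGroup.mk ((x, true) :: L)) = FreeGroup.of x * FreeGroup.mk L := rfl
        rw! [e1]
        rw [map_mul, Perm.mul_apply, ih hL', FreeGroup.lift_apply_of]
        exact hσ x _ _
      | false =>
        have e1 : (FreeGroup.mk ((x, false) :: L)) = (FreeGroup.of x)⁻¹ * FreeGroup.mk L := rfl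
        rw! [e1]
        rw [map_mul, Perm.mul_apply, ih hL', map_inv, FreeGroup.lift_apply_of, Perm.inv_eq_iff_eq]
        rw [hσ x _ (by rw [mul_inv_cancel_left]; exact FreeGroup.norm_mk_le.trans hL')]
        simp
  refine ⟨Perm B, inferInstance, inferInstance, FreeGroup.lift σ, ?_⟩
  intro h
  have h1 := key z.toWord le_rfl
  rw! [FreeGroup.mk_toWord] at h1
  rw [h] at h1
  exact hz (congrArg Subtype.val h1).symm

end FreeRF

/-! ### Heisenberg groups -/

section Heis

/-- The Heisenberg group over a commutative ring. -/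
@[ext]
structure Heis (R : Type) where
  x : R
  y : R
  z : R

variable {R : Type} [CommRing R]

instance : Group (Heis R) where
  mul g h := ⟨g.x + h.x, g.y + h.y, g.z + h.z + g.x * h.y⟩
  one := ⟨0, 0, 0⟩
  inv g := ⟨-g.x, -g.y, -g.z + g.x * g.y⟩
  mul_assoc g h k := by
    show Heis.mk _ _ _ = Heis.mk _ _ _
    ext
    · show g.x + h.x + k.x = g.x + (h.x + k.x)
      ring
    · show g.y + h.y + k.y = g.y + (h.y + k.y)
      ring
    · show g.z + h.z + g.x * h.y + k.z + (g.x + h.x) * k.y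
        = g.z + (h.z + k.z + h.x * k.y) + g.x * (h.y + k.y)
      ring
  one_mul g := by
    show Heis.mk (0 + g.x) (0 + g.y) (0 + g.z + 0 * g.y) = g
    ext <;> simp
  mul_one g := by
    show Heis.mk (g.x + 0) (g.y + 0) (g.z + 0 + g.x * 0) = g
    ext <;> simp
  inv_mul_cancel g := by
    show Heis.mk (-g.x + g.x) (-g.y + g.y) (-g.z + g.x * g.y + g.z + -g.x * g.y) = Heis.mk 0 0 0
    ext
    · show -g.x + g.x = 0
      ring
    · show -g.y + g.y = 0
      ring
    · show -g.z + g.x * g.y + g.z + -g.x * g.y = 0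
      ring

theorem Heis.mul_def (g h : Heis R) :
    g * h = ⟨g.x + h.x, g.y + h.y, g.z + h.z + g.x * h.y⟩ := rfl

theorem Heis.one_def : (1 : Heis R) = ⟨0, 0, 0⟩ := rfl

theorem Heis.inv_def (g : Heis R) : g⁻¹ = ⟨-g.x, -g.y, -g.z + g.x * g.y⟩ := rfl

/-- Reduction homomorphism. -/
def Heis.map {S : Type} [CommRing S] (f : R →+* S) : Heis R →* Heis S where
  toFun g := ⟨f g.x, f g.y, f g.z⟩
  map_one' := by
    rw [Heis.one_def, Heis.one_def, map_zero]
  map_mul' g h := by
    rw [Heis.mul_def, Heis.mul_def, map_add, map_add, map_add, map_add, map_mul]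

instance [Finite R] : Finite (Heis R) :=
  Finite.of_injective (fun g : Heis R => (g.x, g.y, g.z)) (fun g h hgh => by
    simp only [Prod.mk.injEq] at hgh
    exact Heis.ext hgh.1 hgh.2.1 hgh.2.2)

/-- Coordinates. -/
def Heis.coord (g : Heis R) : Fin 3 → R := ![g.x, g.y, g.z]

omit [CommRing R] in
theorem Heis.coord_inj {g h : Heis R} (hgh : g.coord = h.coord) : g = h := by
  have h0 := congrFun hgh 0
  have h1 := congrFun hgh 1
  have h2 := congrFun hgh 2
  exact Heis.ext h0 h1 h2

/-- The standard elements. -/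
def Heis.e (R : Type) [CommRing R] : Fin 3 → Heis R := ![⟨1, 0, 0⟩, ⟨0, 1, 0⟩, ⟨0, 0, 1⟩]

theorem Heis.e_pow (i : Fin 3) (k : ℕ) :
    ((Heis.e R i) ^ k).coord = Pi.single i (k : R) := by
  induction k with
  | zero =>
    funext j
    fin_cases i <;> fin_cases j <;> simp [Heis.coord, Heis.one_def]
  | succ k ih =>
    rw [pow_succ]
    funext j
    have h0 := congrFun ih 0
    have h1 := congrFun ih 1
    have h2 := congrFun ih 2
    fin_cases i <;> fin_cases j <;>
    simp [Heis.coord, Heis.e, Heis.mul_def] at h0 h1 h2 ⊢ <;> simp [h0, h1, h2]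

theorem Heis.e_zpow (i : Fin 3) (k : ℤ) :
    ((Heis.e R i) ^ k).coord = Pi.single i (k : R) := by
  cases k with
  | ofNat n =>
    rw [Int.ofNat_eq_natCast, zpow_natCast, Heis.e_pow, Int.cast_natCast]
  | negSucc n =>
    rw [zpow_negSucc]
    have h0 := congrFun (Heis.e_pow (R := R) i (n + 1)) 0
    have h1 := congrFun (Heis.e_pow (R := R) i (n + 1)) 1
    have h2 := congrFun (Heis.e_pow (R := R) i (n + 1)) 2
    generalize (Heis.e R i) ^ (n + 1) = g at h0 h1 h2
    funext j
    fin_cases i <;> fin_cases j <;>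
    simp [Heis.coord, Heis.inv_def] at h0 h1 h2 ⊢ <;> simp [h0, h1, h2]

theorem Heis.coord_map {S : Type} [CommRing S] (f : R →+* S) (g : Heis R) (j : Fin 3) :
    (Heis.map f g).coord j = f (g.coord j) := by
  fin_cases j <;> rfl

theorem Heis.orderOf_e (m : ℕ) (i : Fin 3) : orderOf (Heis.e (ZMod m) i) = m := by
  have h : ∀ k : ℕ, (Heis.e (ZMod m) i) ^ k = 1 ↔ m ∣ k := by
    intro k
    constructor
    · intro hk
      have h1 := congrFun (Heis.e_pow (R := ZMod m) i k) i
      rw [hk, Pi.single_eq_same] at h1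
      rw [← ZMod.natCast_eq_zero_iff, ← h1]
      fin_cases i <;> rfl
    · intro hk
      apply Heis.coord_inj
      rw [Heis.e_pow, (ZMod.natCast_eq_zero_iff k m).2 hk]
      funext j
      fin_cases i <;> fin_cases j <;> rfl
  apply Nat.dvd_antisymm
  · exact orderOf_dvd_of_pow_eq_one ((h m).2 dvd_rfl)
  · exact (h _).1 (pow_orderOf_eq_one _)

end Heis

/-! ### Separation in the free group of rank two -/

section Separation

/-- The free group of rank two. -/
abbrev F : Type := FreeGroup (Fin 2)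

/-- The elements `a`, `c` and `[a, c]`. -/
def u : Fin 3 → F :=
  ![FreeGroup.of 0, FreeGroup.of 1,
    FreeGroup.of 0 * FreeGroup.of 1 * (FreeGroup.of 0)⁻¹ * (FreeGroup.of 1)⁻¹]

/-- The homomorphism to the Heisenberg group. -/
def heis (R : Type) [CommRing R] : F →* Heis R :=
  FreeGroup.lift ![Heis.e R 0, Heis.e R 1]

theorem heis_u (R : Type) [CommRing R] (i : Fin 3) : heis R (u i) = Heis.e R i := by
  fin_cases i
  · simp [heis, u]
  · simp [heis, u]
  · simp [heis, u, Heis.e, Heis.mul_def, Heis.inv_def]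

theorem heis_cast (m : ℕ) (x : F) :
    heis (ZMod m) x = Heis.map (Int.castRingHom (ZMod m)) (heis ℤ x) := by
  have h : heis (ZMod m) = (Heis.map (Int.castRingHom (ZMod m))).comp (heis ℤ) := by
    ext i
    all_goals
      fin_cases i <;> simp [heis, Heis.e, Heis.map]
  rw [h]
  rfl

theorem separate_list (Y : List F) :
    ∃ (Q : Type) (_ : Group Q) (_ : Finite Q) (ψ : F →* Q), ∀ y ∈ Y, y ≠ 1 → ψ y ≠ 1 := by
  induction Y with
  | nil => exact ⟨Unit, inferInstance, inferInstance, 1, by simp⟩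
  | cons y Y ih =>
    obtain ⟨Q, hQ, hQf, ψ, hψ⟩ := ih
    by_cases hy : y = 1
    · refine ⟨Q, hQ, hQf, ψ, ?_⟩
      intro z hz hz1
      rcases List.mem_cons.1 hz with rfl | hz
      · exact absurd hy hz1
      · exact hψ z hz hz1
    · obtain ⟨S, hS, hSf, f, hf⟩ := freeGroup_rf (Fin 2) y hy
      refine ⟨Q × S, inferInstance, inferInstance, ψ.prod f, ?_⟩
      intro z hz hz1 h
      have h1 : ψ z = 1 := congrArg Prod.fst h
      have h2 : f z = 1 := congrArg Prod.snd h
      rcases List.mem_cons.1 hz with rfl | hz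
      · exact hf h2
      · exact hψ z hz hz1 h1

theorem separation (Z : List F) :
    ∃ (Q : Type) (_ : Group Q) (_ : Finite Q) (ψ : F →* Q),
      (∀ i j, orderOf (ψ (u i)) = orderOf (ψ (u j))) ∧
      (∀ x ∈ Z, x ≠ 1 → ψ x ≠ 1) ∧
      (∀ x ∈ Z, ∀ i, x ∉ Subgroup.zpowers (u i) → ψ x ∉ Subgroup.zpowers (ψ (u i))) := by
  let k : F → Fin 3 → ℤ := fun x => (heis ℤ x).coord
  obtain ⟨Q, hQ, hQf, ψ, hψ⟩ := separate_list
    (Z ++ Z.flatMap (fun x => [x * (u 0) ^ (-(k x 0)), x * (u 1) ^ (-(k x 1)),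
      x * (u 2) ^ (-(k x 2))]))
  let M : ℕ := (Z.map (fun x => (k x 0).natAbs + (k x 1).natAbs + (k x 2).natAbs)).sum
  have hM : ∀ x ∈ Z, ∀ j, (k x j).natAbs ≤ M := by
    intro x hx j
    have h1 : (k x 0).natAbs + (k x 1).natAbs + (k x 2).natAbs ≤ M :=
      List.single_le_sum (by simp) _ (List.mem_map.2 ⟨x, hx, rfl⟩)
    fin_cases j <;> simp only [Fin.zero_eta, Fin.mk_one, Fin.reduceFinMk] <;> omega
  let m : ℕ := Nat.card Q * (M + 1)
  have hm : M < m := by
    have h1 : 0 < Nat.card Q := Nat.card_pos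
    calc M < M + 1 := Nat.lt_succ_self M
      _ = 1 * (M + 1) := (one_mul _).symm
      _ ≤ Nat.card Q * (M + 1) := Nat.mul_le_mul_right _ h1
  have hm0 : NeZero m := ⟨by omega⟩
  have hord : ∀ i, orderOf ((ψ.prod (heis (ZMod m))) (u i)) = m := by
    intro i
    rw [MonoidHom.prod_apply, Prod.orderOf, heis_u, Heis.orderOf_e]
    exact Nat.lcm_eq_right ((orderOf_dvd_natCard _).trans (Dvd.intro _ rfl))
  refine ⟨Q × Heis (ZMod m), inferInstance, inferInstance, ψ.prod (heis (ZMod m)), ?_, ?_, ?_⟩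
  · intro i j
    rw [hord, hord]
  · intro x hx hx1 h
    exact hψ x (List.mem_append_left _ hx) hx1 (congrArg Prod.fst h)
  · intro x hx i hxi
    rintro ⟨l, hl⟩
    have h1 : ψ (u i) ^ l = ψ x := congrArg Prod.fst hl
    have h2 : heis (ZMod m) (u i) ^ l = heis (ZMod m) x := congrArg Prod.snd hl
    rw [heis_u, heis_cast] at h2
    have h3 : ∀ j, (Pi.single i (l : ZMod m) : Fin 3 → ZMod m) j = ((k x j : ℤ) : ZMod m) := by
      intro j
      have h4 := congrFun (Heis.e_zpow (R := ZMod m) i l) j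
      rw [h2, Heis.coord_map] at h4
      exact h4.symm
    -- all other coordinates vanish
    have h5 : ∀ j, j ≠ i → k x j = 0 := by
      intro j hj
      have h6 := h3 j
      rw [Pi.single_eq_of_ne hj] at h6
      have h7 : (m : ℤ) ∣ k x j := (ZMod.intCast_zmod_eq_zero_iff_dvd _ _).1 h6.symm
      have h8 := hM x hx j
      exact Int.eq_zero_of_abs_lt_dvd h7 (by
        rw [Int.abs_eq_natAbs]
        exact_mod_cast lt_of_le_of_lt h8 hm)
    have h6 : ((l : ℤ) : ZMod m) = ((k x i : ℤ) : ZMod m) := by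
      have := h3 i
      rwa [Pi.single_eq_same] at this
    have h7 : (m : ℤ) ∣ l - k x i := by
      rw [← ZMod.intCast_zmod_eq_zero_iff_dvd, Int.cast_sub, h6, sub_self]
    have h8 : ψ (u i) ^ l = ψ (u i) ^ (k x i) := by
      have h9 : (orderOf (ψ (u i)) : ℤ) ∣ l - k x i := by
        refine Dvd.dvd.trans ?_ h7
        exact_mod_cast (orderOf_dvd_natCard (ψ (u i))).trans (Dvd.intro _ rfl)
      have h10 : ψ (u i) ^ (l - k x i) = 1 := by
        rwa [← orderOf_dvd_iff_zpow_eq_one]
      rw [zpow_sub, mul_inv_eq_one] at h10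
      exact h10
    have hmem : x * (u i) ^ (-(k x i)) ∈ (Z ++ Z.flatMap (fun x => [x * (u 0) ^ (-(k x 0)),
        x * (u 1) ^ (-(k x 1)), x * (u 2) ^ (-(k x 2))])) := by
      apply List.mem_append_right
      rw [List.mem_flatMap]
      refine ⟨x, hx, ?_⟩
      fin_cases i <;> simp
    have hne : x * (u i) ^ (-(k x i)) ≠ 1 := by
      intro h
      apply hxi
      rw [zpow_neg, mul_inv_eq_one] at h
      exact ⟨k x i, h.symm⟩
    apply hψ _ hmem hne
    rw [map_mul, map_zpow, zpow_neg, mul_inv_eq_one, ← h8, h1]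

end Separation

/-! ### Elements of equal order are conjugate in the symmetric group -/

theorem exists_conj {Q : Type} [Group Q] [Finite Q] (u v : Q) (h : orderOf u = orderOf v) :
    ∃ σ : Perm Q, ∀ g, σ (g * u) = σ g * v := by
  classical
  let s := Subgroup.zpowers u
  let t := Subgroup.zpowers v
  have hcard : Nat.card (Q ⧸ s) = Nat.card (Q ⧸ t) := by
    have h1 := Subgroup.card_eq_card_quotient_mul_card_subgroup s
    have h2 := Subgroup.card_eq_card_quotient_mul_card_subgroup t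
    have h3 : Nat.card s = Nat.card t := by
      rw [Nat.card_zpowers, Nat.card_zpowers, h]
    rw [h1, h3] at h2
    exact Nat.eq_of_mul_eq_mul_right Nat.card_pos h2
  obtain ⟨φ⟩ : Nonempty ((Q ⧸ s) ≃ (Q ⧸ t)) := Finite.card_eq.1 hcard
  have hk : ∀ g : Q, ∃ k : ℤ, u ^ k = (Quotient.out (g : Q ⧸ s))⁻¹ * g := by
    intro g
    have h1 : (Quotient.out (g : Q ⧸ s))⁻¹ * g ∈ s := by
      rw [← QuotientGroup.eq]
      exact Quotient.out_eq' _
    exact h1
  choose k hk using hk
  let σ0 : Q → Q := fun g => Quotient.out (φ (g : Q ⧸ s)) * v ^ (k g)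
  have hiff : ∀ a b : ℤ, u ^ a = u ^ b ↔ v ^ a = v ^ b := by
    intro a b
    rw [zpow_eq_zpow_iff_modEq, zpow_eq_zpow_iff_modEq, h]
  have hcos : ∀ g, ((σ0 g : Q) : Q ⧸ t) = φ (g : Q ⧸ s) := by
    intro g
    have h1 : ((σ0 g : Q) : Q ⧸ t) = ((Quotient.out (φ (g : Q ⧸ s)) : Q) : Q ⧸ t) := by
      rw [eq_comm, QuotientGroup.eq]
      show _⁻¹ * (Quotient.out (φ (g : Q ⧸ s)) * v ^ (k g)) ∈ t
      rw [inv_mul_cancel_left]
      exact ⟨_, rfl⟩
    rw [h1]
    exact Quotient.out_eq' _
  have hinj : Function.Injective σ0 := by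
    intro g g' hg
    have h1 : (g : Q ⧸ s) = (g' : Q ⧸ s) := by
      apply φ.injective
      rw [← hcos, ← hcos, hg]
    have h2 : v ^ (k g) = v ^ (k g') := by
      have h3 : Quotient.out (φ (g : Q ⧸ s)) * v ^ (k g)
        = Quotient.out (φ (g' : Q ⧸ s)) * v ^ (k g') := hg
      rw [h1] at h3
      exact mul_left_cancel h3
    rw [← hiff, hk, hk, h1] at h2
    exact mul_left_cancel h2
  refine ⟨Equiv.ofBijective σ0 (Finite.injective_iff_bijective.1 hinj), ?_⟩
  intro g
  show Quotient.out (φ ((g * u : Q) : Q ⧸ s)) * v ^ (k (g * u))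
    = Quotient.out (φ (g : Q ⧸ s)) * v ^ (k g) * v
  have h1 : ((g * u : Q) : Q ⧸ s) = (g : Q ⧸ s) := by
    rw [eq_comm, QuotientGroup.eq, inv_mul_cancel_left]
    exact Subgroup.mem_zpowers u
  have h2 : v ^ (k (g * u)) = v ^ (k g + 1) := by
    rw [← hiff, hk, zpow_add_one, hk, h1, mul_assoc]
  rw [h1, h2, zpow_add_one, mul_assoc]

/-- Right multiplication as a homomorphism to the symmetric group. -/
def lam (Q : Type) [Group Q] : Q →* Perm Q where
  toFun q := Equiv.mulRight q⁻¹
  map_one' := by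
    ext g
    simp
  map_mul' p q := by
    ext g
    simp [mul_assoc]

theorem lam_apply {Q : Type} [Group Q] (q g : Q) : lam Q q g = g * q⁻¹ := rfl

theorem lam_injective (Q : Type) [Group Q] : Function.Injective (lam Q) := by
  intro p q h
  have h1 := DFunLike.congr_fun h 1
  rw [lam_apply, lam_apply, one_mul, one_mul] at h1
  exact inv_injective h1

theorem exists_conj' {Q : Type} [Group Q] [Finite Q] (u v : Q) (h : orderOf u = orderOf v) :
    ∃ σ : Perm Q, lam Q v * σ = σ * lam Q u := by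
  obtain ⟨σ, hσ⟩ := exists_conj u v h
  refine ⟨σ, ?_⟩
  ext g
  rw [Perm.mul_apply, Perm.mul_apply, lam_apply, lam_apply]
  have h1 := hσ (g * u⁻¹)
  rw [inv_mul_cancel_right] at h1
  rw [h1, mul_inv_cancel_right]

/-! ### The semidirect products -/

section Semi

variable (P : Type) [Group P] (H : Subgroup P)

/-- The basis of the free normal subgroup. -/
abbrev XX : Type := (P ⧸ H) × Bool

/-- The permutation action on the basis. -/
def actE (p : P) : Perm (XX P H) :=
  Equiv.prodCongr (MulAction.toPerm p) (Equiv.refl Bool)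

/-- The action on the free group. -/
def actF : P →* MulAut (FreeGroup (XX P H)) where
  toFun p := FreeGroup.freeGroupCongr (actE P H p)
  map_one' := by
    have h : actE P H 1 = Equiv.refl _ := by
      ext x <;> simp [actE]
    rw [h, FreeGroup.freeGroupCongr_refl]
    rfl
  map_mul' p q := by
    have h : actE P H (p * q) = (actE P H q).trans (actE P H p) := by
      ext x <;> simp [actE, mul_smul]
    rw [h, ← FreeGroup.freeGroupCongr_trans]
    rfl

theorem actF_of (p : P) (x : P ⧸ H) (b : Bool) :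
    actF P H p (FreeGroup.of (x, b)) = FreeGroup.of (p • x, b) := by
  simp [actF, actE]

/-- The virtually free group into which everything is mapped. -/
abbrev KK : Type := FreeGroup (XX P H) ⋊[actF P H] P

theorem KK_rf [Finite P] (g : KK P H) (hg : g ≠ 1) :
    ∃ N : Subgroup (KK P H), N.FiniteIndex ∧ g ∉ N := by
  by_cases h : g.right = 1
  · have h1 : g = SemidirectProduct.inl g.left := by
      ext1
      · simp
      · simpa using h
    have hz : g.left ≠ 1 := by
      intro h2
      rw [h2, map_one] at h1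
      exact hg h1
    obtain ⟨S, hS, hSf, f, hf⟩ := freeGroup_rf (XX P H) g.left hz
    refine ⟨f.ker.map SemidirectProduct.inl, ?_, ?_⟩
    · constructor
      rw [Subgroup.index_map]
      have h3 : (SemidirectProduct.inl : FreeGroup (XX P H) →* KK P H).ker = ⊥ :=
        (MonoidHom.ker_eq_bot_iff _).2 SemidirectProduct.inl_injective
      rw [h3, sup_bot_eq, SemidirectProduct.range_inl_eq_ker_rightHom]
      exact mul_ne_zero (Subgroup.finiteIndex_ker f).index_ne_zero
        (Subgroup.finiteIndex_ker _).index_ne_zero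
    · rintro ⟨z, hz1, hz2⟩
      rw [h1] at hz2
      have h4 : z = g.left := SemidirectProduct.inl_injective hz2
      rw [h4] at hz1
      exact hf hz1
  · exact ⟨SemidirectProduct.rightHom.ker, Subgroup.finiteIndex_ker _, fun h1 => h h1⟩

end Semi

/-! ### The one-relator group -/

section Group

/-- Left-hand side of the relation. -/
def relL : FreeGroup (Fin 3) := (FreeGroup.of 2)⁻¹ * FreeGroup.of 0 * FreeGroup.of 2

/-- Right-hand side of the relation. -/
def relR : FreeGroup (Fin 3) :=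
  FreeGroup.of 0 * ((FreeGroup.of 1)⁻¹ * FreeGroup.of 0 * FreeGroup.of 1) *
      (FreeGroup.of 0)⁻¹ * ((FreeGroup.of 1)⁻¹ * FreeGroup.of 0 * FreeGroup.of 1)⁻¹

/-- The defining relator: `t⁻¹ a t = [a, s⁻¹ a s]`. -/
def rel : FreeGroup (Fin 3) := relL * relR⁻¹

/-- The one-relator group. -/
abbrev G : Type := PresentedGroup ({rel} : Set (FreeGroup (Fin 3)))

/-- The generator `a`. -/
def gA : G := PresentedGroup.of 0

/-- The stable letters. -/
def st : Bool → G
  | false => PresentedGroup.of 1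
  | true => PresentedGroup.of 2

/-- Index of the target of a stable letter. -/
def tw : Bool → Fin 3
  | false => 1
  | true => 2

/-- The homomorphism from the base group. -/
def iota : F →* G := FreeGroup.lift ![gA, (st false)⁻¹ * gA * st false]

theorem iota_u0 : iota (u 0) = gA := by
  simp [iota, u]

theorem relation : (st true)⁻¹ * gA * st true =
    gA * ((st false)⁻¹ * gA * st false) * gA⁻¹ * ((st false)⁻¹ * gA * st false)⁻¹ := by
  have h : PresentedGroup.mk ({rel} : Set (FreeGroup (Fin 3))) (relL * relR⁻¹) = 1 :=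
    PresentedGroup.one_of_mem (Set.mem_singleton _)
  rw [map_mul, map_inv, mul_inv_eq_one, relL, relR] at h
  rw [map_mul, map_mul, map_mul, map_mul, map_mul, map_inv, map_inv, map_inv, map_mul, map_mul,
    map_inv] at h
  exact h

theorem iota_tw (b : Bool) : iota (u (tw b)) = (st b)⁻¹ * gA * st b := by
  cases b
  · simp [iota, u, tw]
  · rw [relation]
    simp [iota, u, tw]

/-- Letters: a stable letter with a sign. -/
abbrev Lt : Type := Bool × Bool

/-- Value of a letter. -/
def EE : Lt → G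
  | (b, true) => st b
  | (b, false) => (st b)⁻¹

/-- The subgroup relevant for pinches starting with a letter. -/
def Hs : Lt → Subgroup F
  | (b, true) => Subgroup.zpowers (u (tw b))
  | (_, false) => Subgroup.zpowers (u 0)

/-- Evaluation of words. -/
def ev : List (Lt × F) → G
  | [] => 1
  | (e, f) :: l => EE e * iota f * ev l

/-- The relation saying that there is no pinch. -/
def Rl (x y : Lt × F) : Prop := ¬ (x.1.1 = y.1.1 ∧ x.1.2 ≠ y.1.2 ∧ x.2 ∈ Hs x.1)

theorem pinch (b ε ε' : Bool) (f : F) (hε : ε ≠ ε') (hf : f ∈ Hs (b, ε)) :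
    ∃ f' : F, EE (b, ε) * iota f * EE (b, ε') = iota f' := by
  cases ε with
  | true =>
    have h1 : ε' = false := by
      cases ε' with
      | true => exact absurd rfl hε
      | false => rfl
    subst h1
    obtain ⟨k, rfl⟩ := hf
    refine ⟨u 0 ^ k, ?_⟩
    show st b * iota (u (tw b) ^ k) * (st b)⁻¹ = iota (u 0 ^ k)
    rw [map_zpow, map_zpow, ← conj_zpow, iota_tw, iota_u0]
    congr 1
    group
  | false =>
    have h1 : ε' = true := by
      cases ε' with
      | true => rfl
      | false => exact absurd rfl hε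
    subst h1
    obtain ⟨k, rfl⟩ := hf
    refine ⟨u (tw b) ^ k, ?_⟩
    show (st b)⁻¹ * iota (u 0 ^ k) * st b = iota (u (tw b) ^ k)
    rw [map_zpow, map_zpow, iota_tw, iota_u0]
    have h2 := conj_zpow (i := k) (a := (st b)⁻¹) (b := gA)
    rw [inv_inv] at h2
    exact h2.symm

theorem nf_mul (e : Lt) (f : F) (l : List (Lt × F)) (hl : l.IsChain Rl) :
    ∃ f' l', List.IsChain Rl l' ∧ EE e * (iota f * ev l) = iota f' * ev l' := by
  cases l with
  | nil =>
    refine ⟨1, [(e, f)], List.isChain_singleton _, ?_⟩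
    simp [ev]
  | cons y l2 =>
    obtain ⟨e1, f1⟩ := y
    by_cases h : e.1 = e1.1 ∧ e.2 ≠ e1.2 ∧ f ∈ Hs e
    · obtain ⟨h1, h2, h3⟩ := h
      obtain ⟨b, ε⟩ := e
      obtain ⟨b', ε'⟩ := e1
      simp only at h1 h2
      subst h1
      obtain ⟨f', hf'⟩ := pinch b ε ε' f h2 h3
      refine ⟨f' * f1, l2, hl.tail, ?_⟩
      rw [ev, map_mul, ← hf']
      group
    · refine ⟨1, (e, f) :: (e1, f1) :: l2, List.isChain_cons_cons.2 ⟨h, hl⟩, ?_⟩
      show EE e * (iota f * ev ((e1, f1) :: l2)) = iota 1 * (EE e * iota f * ev ((e1, f1) :: l2))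
      rw [map_one, one_mul, mul_assoc]

theorem exists_nf (g : G) : ∃ f l, List.IsChain Rl l ∧ g = iota f * ev l := by
  have hg : g ∈ Subgroup.closure (Set.range (PresentedGroup.of :
      Fin 3 → PresentedGroup ({rel} : Set (FreeGroup (Fin 3))))) := by
    rw [PresentedGroup.closure_range_of]
    exact Subgroup.mem_top g
  have hst : ∀ e : Lt, ∀ y : G, (∃ f l, List.IsChain Rl l ∧ y = iota f * ev l) →
      ∃ f l, List.IsChain Rl l ∧ EE e * y = iota f * ev l := by
    rintro e y ⟨f, l, hl, rfl⟩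
    exact nf_mul e f l hl
  have hio : ∀ f0 : F, ∀ y : G, (∃ f l, List.IsChain Rl l ∧ y = iota f * ev l) →
      ∃ f l, List.IsChain Rl l ∧ iota f0 * y = iota f * ev l := by
    rintro f0 y ⟨f, l, hl, rfl⟩
    exact ⟨f0 * f, l, hl, by rw [map_mul, mul_assoc]⟩
  induction hg using Subgroup.closure_induction_left with
  | one => exact ⟨1, [], List.isChain_nil, by simp [ev]⟩
  | mul_left x hx y hy ih =>
    obtain ⟨i, rfl⟩ := hx
    fin_cases i
    · have h := hio (u 0) y ih
      rwa [iota_u0] at h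
    · exact hst (false, true) y ih
    · exact hst (true, true) y ih
  | inv_mul_cancel x hx y hy ih =>
    obtain ⟨i, rfl⟩ := hx
    fin_cases i
    · have h := hio (u 0)⁻¹ y ih
      rwa [map_inv, iota_u0] at h
    · exact hst (false, false) y ih
    · exact hst (true, false) y ih

end Group

/-! ### Homomorphisms to virtually free groups -/

section Phi

open SemidirectProduct

variable {Q : Type} [Group Q] (ψ : F →* Q) (σ : Bool → Perm Q)

/-- The cyclic subgroup generated by the image of `a`. -/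
abbrev Hb : Subgroup (Perm Q) := Subgroup.zpowers (lam Q (ψ (u 0)))

/-- Images of the stable letters. -/
def tb (b : Bool) : KK (Perm Q) (Hb ψ) :=
  inl (FreeGroup.of (((1 : Perm Q) : Perm Q ⧸ Hb ψ), b)) * inr (σ b)

theorem inr_mul_inl (p : Perm Q) (n : FreeGroup (XX (Perm Q) (Hb ψ))) :
    (inr p : KK (Perm Q) (Hb ψ)) * inl n = inl (actF (Perm Q) (Hb ψ) p n) * inr p := by
  rw [inl_aut, mul_assoc, ← map_mul, inv_mul_cancel, map_one, mul_one]

theorem tb_conj (hσ : ∀ b, lam Q (ψ (u 0)) * σ b = σ b * lam Q (ψ (u (tw b)))) (b : Bool) :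
    (tb ψ σ b)⁻¹ * inr (lam Q (ψ (u 0))) * tb ψ σ b = inr (lam Q (ψ (u (tw b)))) := by
  rw [mul_assoc, inv_mul_eq_iff_eq_mul, tb, ← mul_assoc, inr_mul_inl, actF_of, mul_assoc,
    mul_assoc, ← map_mul, ← map_mul, hσ]
  congr 3
  have h : (lam Q (ψ (u 0))) • ((1 : Perm Q) : Perm Q ⧸ Hb ψ) = ((1 : Perm Q) : Perm Q ⧸ Hb ψ) := by
    rw [MulAction.Quotient.smul_coe, smul_eq_mul, mul_one, QuotientGroup.eq, mul_one]
    exact inv_mem (Subgroup.mem_zpowers _)
  rw [h]

/-- Images of the generators. -/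
def phi0 : Fin 3 → KK (Perm Q) (Hb ψ) := ![inr (lam Q (ψ (u 0))), tb ψ σ false, tb ψ σ true]

theorem phi0_rel (hσ : ∀ b, lam Q (ψ (u 0)) * σ b = σ b * lam Q (ψ (u (tw b)))) :
    ∀ r ∈ ({rel} : Set (FreeGroup (Fin 3))), FreeGroup.lift (phi0 ψ σ) r = 1 := by
  intro r hr
  rw [Set.mem_singleton_iff] at hr
  subst hr
  have h1 := tb_conj ψ σ hσ false
  have h2 := tb_conj ψ σ hσ true
  rw [rel, map_mul, map_inv, mul_inv_eq_one, relL, relR]
  simp only [map_mul, map_inv, FreeGroup.lift_apply_of]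
  show (tb ψ σ true)⁻¹ * inr (lam Q (ψ (u 0))) * tb ψ σ true =
    inr (lam Q (ψ (u 0))) * ((tb ψ σ false)⁻¹ * inr (lam Q (ψ (u 0))) * tb ψ σ false) *
      (inr (lam Q (ψ (u 0))))⁻¹ * ((tb ψ σ false)⁻¹ * inr (lam Q (ψ (u 0))) * tb ψ σ false)⁻¹
  have h3 : ψ (u (tw true)) = ψ (u 0) * ψ (u (tw false)) * (ψ (u 0))⁻¹ * (ψ (u (tw false)))⁻¹ := by
    rw [← map_inv, ← map_inv, ← map_mul, ← map_mul, ← map_mul]
    rfl
  rw [h1, h2, h3]
  simp only [map_mul, map_inv]

/-- The homomorphism to the virtually free group. -/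
def Phi (hσ : ∀ b, lam Q (ψ (u 0)) * σ b = σ b * lam Q (ψ (u (tw b)))) :
    G →* KK (Perm Q) (Hb ψ) :=
  PresentedGroup.toGroup (phi0_rel ψ σ hσ)

variable (hσ : ∀ b, lam Q (ψ (u 0)) * σ b = σ b * lam Q (ψ (u (tw b))))

theorem Phi_gA : Phi ψ σ hσ gA = inr (lam Q (ψ (u 0))) := by
  rw [Phi, gA, PresentedGroup.toGroup.of]
  rfl

theorem Phi_st (b : Bool) : Phi ψ σ hσ (st b) = tb ψ σ b := by
  cases b
  · rw [Phi, st, PresentedGroup.toGroup.of]
    rfl
  · rw [Phi, st, PresentedGroup.toGroup.of]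
    rfl

theorem Phi_iota (f : F) : Phi ψ σ hσ (iota f) = inr (lam Q (ψ f)) := by
  have h : (Phi ψ σ hσ).comp iota = (inr : Perm Q →* KK (Perm Q) (Hb ψ)).comp ((lam Q).comp ψ) := by
    apply FreeGroup.ext_hom
    intro i
    fin_cases i
    · show Phi ψ σ hσ (iota (u 0)) = inr (lam Q (ψ (u 0)))
      rw [iota_u0, Phi_gA]
    · show Phi ψ σ hσ (iota (u (tw false))) = inr (lam Q (ψ (u (tw false))))
      rw [iota_tw, map_mul, map_mul, map_inv, Phi_gA, Phi_st, tb_conj ψ σ hσ]
  exact DFunLike.congr_fun h f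

/-- The word in the free group attached to a word in the one-relator group. -/
def WW : Perm Q → List (Lt × F) → List (XX (Perm Q) (Hb ψ) × Bool)
  | _, [] => []
  | p, ((b, true), f) :: l =>
      (((p : Perm Q ⧸ Hb ψ), b), true) :: WW (p * σ b * lam Q (ψ f)) l
  | p, ((b, false), f) :: l =>
      ((((p * (σ b)⁻¹ : Perm Q) : Perm Q ⧸ Hb ψ), b), false) ::
        WW (p * (σ b)⁻¹ * lam Q (ψ f)) l

theorem Phi_ev (l : List (Lt × F)) (p : Perm Q) :
    ∃ p', inr p * Phi ψ σ hσ (ev l) = inl (FreeGroup.mk (WW ψ σ p l)) * inr p' := by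
  induction l generalizing p with
  | nil =>
    refine ⟨p, ?_⟩
    rw [ev, map_one, mul_one]
    show inr p = inl 1 * inr p
    rw [map_one, one_mul]
  | cons x l ih =>
    obtain ⟨⟨b, ε⟩, f⟩ := x
    cases ε with
    | true =>
      obtain ⟨p', hp'⟩ := ih (p * σ b * lam Q (ψ f))
      refine ⟨p', ?_⟩
      have e1 : FreeGroup.mk (WW ψ σ p (((b, true), f) :: l)) =
        FreeGroup.of (((p : Perm Q ⧸ Hb ψ), b)) *
          FreeGroup.mk (WW ψ σ (p * σ b * lam Q (ψ f)) l) := rfl
      rw [e1, map_mul, mul_assoc, ← hp', ev, map_mul, map_mul, Phi_iota]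
      show inr p * (Phi ψ σ hσ (st b) * inr (lam Q (ψ f)) * Phi ψ σ hσ (ev l)) = _
      rw [Phi_st, tb]
      have h2 : (inl (FreeGroup.of ((p : Perm Q ⧸ Hb ψ), b)) : KK (Perm Q) (Hb ψ)) =
          inr p * inl (FreeGroup.of (((1 : Perm Q) : Perm Q ⧸ Hb ψ), b)) * (inr p)⁻¹ := by
        rw [inr_mul_inl, actF_of, mul_assoc, mul_inv_cancel, mul_one,
          MulAction.Quotient.smul_coe, smul_eq_mul, mul_one]
      rw [h2, map_mul, map_mul]
      group
    | false =>
      obtain ⟨p', hp'⟩ := ih (p * (σ b)⁻¹ * lam Q (ψ f))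
      refine ⟨p', ?_⟩
      have e1 : FreeGroup.mk (WW ψ σ p (((b, false), f) :: l)) =
        (FreeGroup.of (((p * (σ b)⁻¹ : Perm Q) : Perm Q ⧸ Hb ψ), b))⁻¹ *
          FreeGroup.mk (WW ψ σ (p * (σ b)⁻¹ * lam Q (ψ f)) l) := rfl
      rw [e1, map_mul, mul_assoc, ← hp', ev, map_mul, map_mul, Phi_iota]
      show inr p * (Phi ψ σ hσ (st b)⁻¹ * inr (lam Q (ψ f)) * Phi ψ σ hσ (ev l)) = _
      rw [map_inv, Phi_st, tb]
      have h2 : (inl (FreeGroup.of (((p * (σ b)⁻¹ : Perm Q) : Perm Q ⧸ Hb ψ), b)) :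
          KK (Perm Q) (Hb ψ)) =
          inr (p * (σ b)⁻¹) * inl (FreeGroup.of (((1 : Perm Q) : Perm Q ⧸ Hb ψ), b)) *
            (inr (p * (σ b)⁻¹))⁻¹ := by
        rw [inr_mul_inl, actF_of, mul_assoc, mul_inv_cancel, mul_one,
          MulAction.Quotient.smul_coe, smul_eq_mul, mul_one]
      rw [map_inv, h2]
      simp only [map_mul, map_inv]
      group

theorem WW_reduced (hσ : ∀ b, lam Q (ψ (u 0)) * σ b = σ b * lam Q (ψ (u (tw b))))
    (l : List (Lt × F)) (hl : l.IsChain Rl)
    (hsep : ∀ x ∈ l, ∀ i, x.2 ∉ Subgroup.zpowers (u i) → ψ x.2 ∉ Subgroup.zpowers (ψ (u i)))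
    (p : Perm Q) : FreeGroup.IsReduced (WW ψ σ p l) := by
  induction l generalizing p with
  | nil => exact FreeGroup.IsReduced.nil
  | cons x l ih =>
    have ih' := ih hl.tail (fun x hx => hsep x (List.mem_cons_of_mem _ hx))
    cases l with
    | nil =>
      obtain ⟨⟨b, ε⟩, f⟩ := x
      cases ε <;> exact FreeGroup.IsReduced.singleton
    | cons y l =>
      have hx := hsep x List.mem_cons_self
      have hxy : Rl x y := (List.isChain_cons_cons.1 hl).1
      obtain ⟨⟨b, ε⟩, f⟩ := x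
      obtain ⟨⟨b', ε'⟩, f'⟩ := y
      have hlam : ∀ q r : Q, lam Q q ∈ Subgroup.zpowers (lam Q r) → q ∈ Subgroup.zpowers r := by
        rintro q r ⟨k, hk⟩
        refine ⟨k, lam_injective Q ?_⟩
        rw [map_zpow]
        exact hk
      cases ε with
      | true =>
        cases ε' with
        | true =>
          exact FreeGroup.isReduced_cons_cons.2 ⟨fun _ => rfl, ih' _⟩
        | false =>
          refine FreeGroup.isReduced_cons_cons.2 ⟨fun h => ?_, ih' _⟩
          exfalso
          have h1 : ((p : Perm Q ⧸ Hb ψ)) =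
            ((p * σ b * lam Q (ψ f) * (σ b')⁻¹ : Perm Q) : Perm Q ⧸ Hb ψ) := congrArg Prod.fst h
          have h2 : b = b' := congrArg Prod.snd h
          subst h2
          rw [QuotientGroup.eq] at h1
          obtain ⟨k, hk⟩ := h1
          have h3 : lam Q (ψ f) = (lam Q (ψ (u (tw b)))) ^ k := by
            have h4 : lam Q (ψ (u (tw b))) = (σ b)⁻¹ * lam Q (ψ (u 0)) * ((σ b)⁻¹)⁻¹ := by
              rw [inv_inv, mul_assoc, hσ, inv_mul_cancel_left]
            have hk' : (lam Q (ψ (u 0))) ^ k = p⁻¹ * (p * σ b * lam Q (ψ f) * (σ b)⁻¹) := hk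
            rw [h4, conj_zpow, hk']
            group
          have h5 : ψ f ∈ Subgroup.zpowers (ψ (u (tw b))) := hlam _ _ ⟨k, h3.symm⟩
          apply hxy
          refine ⟨rfl, by simp, ?_⟩
          by_contra h6
          exact hx (tw b) h6 h5
      | false =>
        cases ε' with
        | false =>
          exact FreeGroup.isReduced_cons_cons.2 ⟨fun _ => rfl, ih' _⟩
        | true =>
          refine FreeGroup.isReduced_cons_cons.2 ⟨fun h => ?_, ih' _⟩
          exfalso
          have h1 : (((p * (σ b)⁻¹ : Perm Q) : Perm Q ⧸ Hb ψ)) =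
            ((p * (σ b)⁻¹ * lam Q (ψ f) : Perm Q) : Perm Q ⧸ Hb ψ) := congrArg Prod.fst h
          have h2 : b = b' := congrArg Prod.snd h
          subst h2
          rw [QuotientGroup.eq, inv_mul_cancel_left] at h1
          have h5 : ψ f ∈ Subgroup.zpowers (ψ (u 0)) := hlam _ _ h1
          apply hxy
          refine ⟨rfl, by simp, ?_⟩
          by_contra h6
          exact hx 0 h6 h5

end Phi

/-! ### Conclusion -/

theorem exists_Phi_ne (g : G) (hg : g ≠ 1) :
    ∃ (Q : Type) (_ : Group Q) (_ : Finite Q) (H : Subgroup (Perm Q)) (f : G →* KK (Perm Q) H),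
      f g ≠ 1 := by
  obtain ⟨f, l, hl, rfl⟩ := exists_nf g
  obtain ⟨Q, hQ, hQf, ψ, h1, h2, h3⟩ := separation (f :: l.map Prod.snd)
  have hσ : ∀ b, ∃ σ : Perm Q, lam Q (ψ (u 0)) * σ = σ * lam Q (ψ (u (tw b))) :=
    fun b => exists_conj' _ _ (h1 _ _)
  choose σ hσ using hσ
  refine ⟨Q, hQ, hQf, Hb ψ, Phi ψ σ hσ, ?_⟩
  intro h
  rw [map_mul, Phi_iota] at h
  cases l with
  | nil =>
    rw [ev, map_one, mul_one] at h
    have hf : f ≠ 1 := by
      rintro rfl
      exact hg (by simp [ev])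
    apply h2 f List.mem_cons_self hf
    apply lam_injective Q
    rw [map_one]
    exact SemidirectProduct.inr_injective (h.trans (map_one _).symm)
  | cons x l =>
    obtain ⟨p', hp'⟩ := Phi_ev ψ σ hσ (x :: l) (lam Q (ψ f))
    rw [hp'] at h
    have h4 := congrArg SemidirectProduct.left h
    have h5 : FreeGroup.mk (WW ψ σ (lam Q (ψ f)) (x :: l)) = 1 := by
      simpa using h4
    have hred : FreeGroup.IsReduced (WW ψ σ (lam Q (ψ f)) (x :: l)) := by
      apply WW_reduced ψ σ hσ _ hl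
      intro y hy i
      exact h3 y.2 (List.mem_cons_of_mem _ (List.mem_map_of_mem hy)) i
    classical
    have h6 := congrArg FreeGroup.toWord h5
    rw [FreeGroup.toWord_mk, hred.reduce_eq, FreeGroup.toWord_one] at h6
    obtain ⟨⟨b, ε⟩, f'⟩ := x
    cases ε <;> exact List.cons_ne_nil _ _ h6

theorem residually_finite (g : G) (hg : g ≠ 1) :
    ∃ N : Subgroup G, N.Normal ∧ N.FiniteIndex ∧ g ∉ N := by
  obtain ⟨Q, hQ, hQf, H, f, hf⟩ := exists_Phi_ne g hg
  obtain ⟨N, hN, hgN⟩ := KK_rf (Perm Q) H (f g) hf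
  let F' : G →* (KK (Perm Q) H ⧸ N.normalCore) := (QuotientGroup.mk' N.normalCore).comp f
  refine ⟨F'.ker, inferInstance, inferInstance, ?_⟩
  intro h
  have h1 : QuotientGroup.mk' N.normalCore (f g) = 1 := h
  have h2 : f g ∈ N.normalCore := (QuotientGroup.eq_one_iff _).1 h1
  exact hgN (N.normalCore_le h2)

theorem gA_ne_one : gA ≠ 1 := by
  obtain ⟨Q, hQ, hQf, ψ, h1, h2, h3⟩ := separation [u 0]
  have hσ : ∀ b, ∃ σ : Perm Q, lam Q (ψ (u 0)) * σ = σ * lam Q (ψ (u (tw b))) :=
    fun b => exists_conj' _ _ (h1 _ _)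
  choose σ hσ using hσ
  intro h
  have h4 := Phi_gA ψ σ hσ
  rw [h, map_one] at h4
  have h5 : u 0 ≠ 1 := FreeGroup.of_ne_one _
  apply h2 (u 0) List.mem_cons_self h5
  apply lam_injective Q
  rw [map_one]
  exact (SemidirectProduct.inr_injective ((map_one _).trans h4)).symm

theorem gA_mem (k : ℕ) : gA ∈ derivedSeries G k := by
  induction k with
  | zero => exact Subgroup.mem_top _
  | succ k ih =>
    have hn : (derivedSeries G k).Normal := inferInstance
    have hn' : (derivedSeries G (k + 1)).Normal := inferInstance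
    have h1 : (st false)⁻¹ * gA * st false ∈ derivedSeries G k := by
      have := hn.conj_mem gA ih (st false)⁻¹
      rwa [inv_inv] at this
    have h2 : (st true)⁻¹ * gA * st true ∈ derivedSeries G (k + 1) := by
      rw [relation, derivedSeries_succ]
      exact Subgroup.commutator_mem_commutator ih h1
    have h3 := hn'.conj_mem _ h2 (st true)
    convert h3 using 1
    group

end Pool.Agent.MP1358e2
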